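import Pool.Agent.Y393.RS.Stmts

/-!
# Fair coins: independence and the number of heads
-/

set_option autoImplicit false

namespace Pool.Agent.Y961.RS

open Finset Pool.Agent.Y393.RS

theorem pr_def {Ω : Type} [Fintype Ω] (P : Ω → Prop) [DecidablePred P] :
    pr P = ((univ.filter P).card : ℝ) / (Fintype.card Ω : ℝ) := by
  unfold pr
  congr!

section coins

variable {ι : Type} [DecidableEq ι]

/-- `a` on `S` and `b` off `S` -/
def mix (S : Finset ι) (a b : ι → Bool) : ι → Bool := fun i => if i ∈ S then a i else b i

theorem mix_mem {S : Finset ι} {a b : ι → Bool} {i : ι} (h : i ∈ S) : mix S a b i = a i := if_pos h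

theorem mix_not {S : Finset ι} {a b : ι → Bool} {i : ι} (h : i ∉ S) : mix S a b i = b i := if_neg h

theorem mix_mix (S : Finset ι) (a b : ι → Bool) : mix S (mix S a b) (mix S b a) = a := by
  ext i
  by_cases h : i ∈ S
  · rw [mix_mem h, mix_mem h]
  · rw [mix_not h, mix_not h]

end coins

theorem indep : S_indep := by
  intro ι _ _ S T hST P Q hP hQ
  classical
  rw [pr_def, pr_def, pr_def]
  have hc : (univ.filter fun χ : ι → Bool => P χ ∧ Q χ).card * (univ : Finset (ι → Bool)).card =
      (univ.filter fun χ : ι → Bool => P χ).card * (univ.filter fun χ : ι → Bool => Q χ).card := by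
    rw [← Finset.card_product, ← Finset.card_product]
    refine Finset.card_nbij' (fun q => (mix S q.1 q.2, mix S q.2 q.1))
      (fun q => (mix S q.1 q.2, mix S q.2 q.1)) ?_ ?_ ?_ ?_
    · rintro ⟨a, b⟩ h
      simp only [Finset.coe_product, Set.mem_prod, Finset.mem_coe, Finset.mem_filter,
        Finset.mem_univ, true_and, and_true] at h ⊢
      refine ⟨hP a _ (fun i hi => (mix_mem hi).symm) h.1, hQ a _ (fun i hi => ?_) h.2⟩
      rw [mix_not (Finset.disjoint_right.1 hST hi)]
    · rintro ⟨a, b⟩ h
      simp only [Finset.coe_product, Set.mem_prod, Finset.mem_coe, Finset.mem_filter,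
        Finset.mem_univ, true_and, and_true] at h ⊢
      refine ⟨hP a _ (fun i hi => (mix_mem hi).symm) h.1, hQ b _ (fun i hi => ?_) h.2⟩
      rw [mix_not (Finset.disjoint_right.1 hST hi)]
    · rintro ⟨a, b⟩ _
      simp only [mix_mix]
    · rintro ⟨a, b⟩ _
      simp only [mix_mix]
  have hN : (0 : ℝ) < (Fintype.card (ι → Bool) : ℝ) := by exact_mod_cast Fintype.card_pos
  have hc' : ((univ.filter fun χ : ι → Bool => P χ ∧ Q χ).card : ℝ) * (Fintype.card (ι → Bool) : ℝ) =
      ((univ.filter fun χ : ι → Bool => P χ).card : ℝ) *
        ((univ.filter fun χ : ι → Bool => Q χ).card : ℝ) := by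
    rw [← Finset.card_univ]
    exact_mod_cast hc
  rw [div_mul_div_comm, div_eq_div_iff hN.ne' (by positivity), ← mul_assoc, hc']

section count

variable {ι : Type} [Fintype ι] [DecidableEq ι]

/-- the number of the coins with a given set of heads in `S` -/
theorem card_fib (S U : Finset ι) (hU : U ⊆ S) :
    (univ.filter fun χ : ι → Bool => S.filter (fun i => χ i = true) = U).card * 2 ^ S.card =
      2 ^ Fintype.card ι := by
  have h1 : (univ.filter fun χ : ι → Bool => S.filter (fun i => χ i = true) = U) =
      Fintype.piFinset fun i => if i ∈ S then {decide (i ∈ U)} else (univ : Finset Bool) := by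
    ext χ
    simp only [Finset.mem_filter, Finset.mem_univ, true_and, Fintype.mem_piFinset]
    constructor
    · intro h i
      by_cases hi : i ∈ S
      · rw [if_pos hi, Finset.mem_singleton]
        have : i ∈ U ↔ χ i = true := by
          rw [← h, Finset.mem_filter]
          simp [hi]
        rcases hb : χ i with _ | _
        · rw [hb] at this
          simp [this]
        · rw [hb] at this
          simp [this]
      · rw [if_neg hi]
        exact Finset.mem_univ _
    · intro h
      ext i
      rw [Finset.mem_filter]
      constructor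
      · rintro ⟨hi, hb⟩
        have := h i
        rw [if_pos hi, Finset.mem_singleton, hb] at this
        exact of_decide_eq_true this.symm
      · intro hi
        have := h i
        rw [if_pos (hU hi), Finset.mem_singleton] at this
        exact ⟨hU hi, by rw [this]; exact decide_eq_true hi⟩
  rw [h1, Fintype.card_piFinset]
  have h2 : ∀ i : ι, (if i ∈ S then {decide (i ∈ U)} else (univ : Finset Bool)).card *
      (if i ∈ S then 2 else 1) = 2 := by
    intro i
    by_cases hi : i ∈ S
    · rw [if_pos hi, if_pos hi, Finset.card_singleton]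
    · rw [if_neg hi, if_neg hi, Finset.card_univ, Fintype.card_bool]
  have h3 : (2 : ℕ) ^ S.card = ∏ i : ι, if i ∈ S then 2 else 1 := by
    rw [Finset.prod_ite, Finset.prod_const_one, mul_one, Finset.prod_const]
    congr 2
    ext i
    simp
  rw [h3, ← Finset.prod_mul_distrib, Finset.prod_congr rfl fun i _ => h2 i, Finset.prod_const,
    Finset.card_univ]

/-- the number of the coins with `k` heads in `S` -/
theorem card_bin (S : Finset ι) (k : ℕ) :
    (univ.filter fun χ : ι → Bool => (S.filter (fun i => χ i = true)).card = k).card * 2 ^ S.card =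
      S.card.choose k * 2 ^ Fintype.card ι := by
  have h1 : (univ.filter fun χ : ι → Bool => (S.filter (fun i => χ i = true)).card = k).card =
      ∑ U ∈ S.powersetCard k,
        (univ.filter fun χ : ι → Bool => S.filter (fun i => χ i = true) = U).card := by
    rw [Finset.card_eq_sum_card_fiberwise (f := fun χ : ι → Bool => S.filter (fun i => χ i = true))
      (t := S.powersetCard k)]
    · refine Finset.sum_congr rfl fun U hU => ?_
      rw [Finset.filter_filter]
      congr 1
      ext χ
      simp only [Finset.mem_filter, Finset.mem_univ, true_and]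
      constructor
      · exact fun h => h.2
      · intro h
        exact ⟨by rw [h]; exact (Finset.mem_powersetCard.1 hU).2, h⟩
    · intro χ hχ
      simp only [Finset.coe_filter, Finset.mem_univ, true_and, Set.mem_ofPred_eq] at hχ
      rw [Finset.mem_coe, Finset.mem_powersetCard]
      exact ⟨Finset.filter_subset _ _, hχ⟩
  rw [h1, Finset.sum_mul, Finset.sum_congr rfl fun U hU =>
    card_fib S U (Finset.mem_powersetCard.1 hU).1, Finset.sum_const, Finset.card_powersetCard,
    smul_eq_mul]

end count

theorem bin_eq : S_bin_eq := by
  intro ι _ _ S k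
  have h := card_bin S k
  have hN : Fintype.card (ι → Bool) = 2 ^ Fintype.card ι := by simp
  have h' : ((univ.filter fun χ : ι → Bool => (S.filter (fun i => χ i = true)).card = k).card : ℝ) *
      2 ^ S.card = (S.card.choose k : ℝ) * 2 ^ Fintype.card ι := by exact_mod_cast h
  unfold pb
  rw [pr_def, hN]
  push_cast
  rw [div_eq_div_iff (by positivity) (by positivity)]
  exact h'

theorem bin_ge : S_bin_ge := by
  intro ι _ _ S k
  unfold tb
  rw [← Finset.sum_congr rfl fun j _ => bin_eq ι S j]
  simp only [pr_def]
  rw [← Finset.sum_div]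
  congr 1
  have h1 : (univ.filter fun χ : ι → Bool => k ≤ (S.filter (fun i => χ i = true)).card).card =
      ∑ j ∈ Icc k S.card,
        (univ.filter fun χ : ι → Bool => (S.filter (fun i => χ i = true)).card = j).card := by
    rw [Finset.card_eq_sum_card_fiberwise
      (f := fun χ : ι → Bool => (S.filter (fun i => χ i = true)).card) (t := Icc k S.card)]
    · refine Finset.sum_congr rfl fun j hj => ?_
      rw [Finset.filter_filter]
      congr 1
      ext χ
      simp only [Finset.mem_filter, Finset.mem_univ, true_and]
      constructor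
      · exact fun h => h.2
      · intro h
        exact ⟨by rw [h]; exact (Finset.mem_Icc.1 hj).1, h⟩
    · intro χ hχ
      simp only [Finset.coe_filter, Finset.mem_univ, true_and, Set.mem_ofPred_eq] at hχ
      rw [Finset.mem_coe, Finset.mem_Icc]
      exact ⟨hχ, Finset.card_filter_le _ _⟩
  have h2 : ((univ.filter fun χ : ι → Bool => k ≤ (S.filter (fun i => χ i = true)).card).card : ℝ) =
      ∑ j ∈ Icc k S.card,
        ((univ.filter fun χ : ι → Bool => (S.filter (fun i => χ i = true)).card = j).card : ℝ) := by
    exact_mod_cast h1
  exact h2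

end Pool.Agent.Y961.RS
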